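import Pool.Agent.H75.L.W662.CB.Stmts

set_option autoImplicit false

open MeasureTheory Filter Topology Complex
open scoped InnerProductSpace ENNReal

namespace Pool.Agent.W158.CB

open Pool.Agent.W662.CB

noncomputable section

theorem smul_one_mem {H : Type} [NormedAddCommGroup H] [InnerProductSpace ℂ H] [CompleteSpace H]
    (M : VonNeumannAlgebra H) (c : ℂ) : (c • (1 : H →L[ℂ] H)) ∈ M := by
  have h : algebraMap ℂ (H →L[ℂ] H) c ∈ M.toStarSubalgebra := M.toStarSubalgebra.algebraMap_mem c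
  rw [Algebra.algebraMap_eq_smul_one] at h
  exact h

/-- A vector at distance zero from the multiples of `ξ` is a multiple of `ξ`. -/
theorem exists_smul {H : Type} [NormedAddCommGroup H] [InnerProductSpace ℂ H]
    (ξ w : H) (h : ∀ ρ : ℝ, 0 < ρ → ∃ c : ℂ, ‖w - c • ξ‖ < ρ) : ∃ c : ℂ, w = c • ξ := by
  have hcl : IsClosed ((Submodule.span ℂ {ξ} : Submodule ℂ H) : Set H) :=
    Submodule.closed_of_finiteDimensional _
  have hmem : w ∈ closure ((Submodule.span ℂ {ξ} : Submodule ℂ H) : Set H) := by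
    rw [Metric.mem_closure_iff]
    intro ρ hρ
    obtain ⟨c, hc⟩ := h ρ hρ
    refine ⟨c • ξ, ?_, ?_⟩
    · exact Submodule.smul_mem _ _ (Submodule.mem_span_singleton_self ξ)
    · rw [dist_eq_norm]
      exact hc
  rw [hcl.closure_eq] at hmem
  obtain ⟨c, hc⟩ := Submodule.mem_span_singleton.1 hmem
  exact ⟨c, hc.symm⟩

theorem f1 (hf0 : S_F0) (h7 : S_B7) (h8 : S_B8) (h9 : S_B9) (hA7 : S_A7) (hc7 : S_C7) :
    S_F1 := by
  intro H K _ _ _ _ _ _ M N ξ U hStd κ V A B hAB hB hA hκ hirr hbox x hx hfix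
  have hxM : x ∈ M := hx.1
  have key : ∀ ρ : ℝ, 0 < ρ → ∃ c : ℂ, ‖x ξ - c • ξ‖ < ρ := by
    intro ρ hρ
    obtain ⟨s, hs0, hs1, hsρ⟩ : ∃ s : ℝ, 0 < s ∧ s ≤ 1 ∧ 16 * s ≤ ρ := by
      refine ⟨min 1 (ρ / 16), lt_min one_pos (by positivity), min_le_left _ _, ?_⟩
      have := min_le_right (1 : ℝ) (ρ / 16)
      linarith
    have hs2 : 0 < s ^ 2 := by positivity
    -- `L`
    obtain ⟨L, hL0, hL⟩ : ∃ L : ℝ, 0 < L ∧ 8 * ‖x‖ ^ 2 / L ^ 2 ≤ s ^ 2 := by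
      refine ⟨(3 * ‖x‖ + 1) / s, by positivity, ?_⟩
      rw [div_le_iff₀ (by positivity), div_pow]
      have h1 : s ^ 2 * ((3 * ‖x‖ + 1) ^ 2 / s ^ 2) = (3 * ‖x‖ + 1) ^ 2 := by
        field_simp
      rw [h1]
      nlinarith [norm_nonneg x, sq_nonneg ‖x‖]
    obtain ⟨A0, hA0, hA1⟩ := hA7 H M N ξ hStd.unit hStd.le x hx L (s ^ 2) hL0 hs2
    -- `δ`
    obtain ⟨δ, hδ0, hδ1, hδA, hδx⟩ : ∃ δ : ℝ, 0 < δ ∧ δ ≤ 1 ∧ 20 * A0 * (3 * δ) ^ 2 ≤ s ^ 2 ∧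
        ‖x‖ * δ ≤ s ^ 2 := by
      have hpos : 0 < 180 * A0 + ‖x‖ + 1 := by positivity
      refine ⟨min 1 (s ^ 2 / (180 * A0 + ‖x‖ + 1)), lt_min one_pos (by positivity),
        min_le_left _ _, ?_, ?_⟩
      · have h1 : min 1 (s ^ 2 / (180 * A0 + ‖x‖ + 1)) ≤ 1 := min_le_left _ _
        have h2 : min 1 (s ^ 2 / (180 * A0 + ‖x‖ + 1)) ≤ s ^ 2 / (180 * A0 + ‖x‖ + 1) :=
          min_le_right _ _
        have h0 : 0 < min 1 (s ^ 2 / (180 * A0 + ‖x‖ + 1)) := lt_min one_pos (by positivity)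
        rw [le_div_iff₀ hpos] at h2
        generalize min 1 (s ^ 2 / (180 * A0 + ‖x‖ + 1)) = δ at h0 h1 h2 ⊢
        have h3 : δ ^ 2 ≤ δ := by nlinarith
        have h4 : 20 * A0 * (3 * δ) ^ 2 = (180 * A0) * δ ^ 2 := by ring
        rw [h4]
        calc (180 * A0) * δ ^ 2 ≤ (180 * A0) * δ := mul_le_mul_of_nonneg_left h3 (by positivity)
          _ ≤ δ * (180 * A0 + ‖x‖ + 1) := by nlinarith [norm_nonneg x]
          _ ≤ s ^ 2 := h2
      · have h2 : min 1 (s ^ 2 / (180 * A0 + ‖x‖ + 1)) ≤ s ^ 2 / (180 * A0 + ‖x‖ + 1) :=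
          min_le_right _ _
        have h0 : 0 < min 1 (s ^ 2 / (180 * A0 + ‖x‖ + 1)) := lt_min one_pos (by positivity)
        rw [le_div_iff₀ hpos] at h2
        generalize min 1 (s ^ 2 / (180 * A0 + ‖x‖ + 1)) = δ at h0 h2 ⊢
        nlinarith [norm_nonneg x]
    obtain ⟨J, E, T, δ', hδ', hBox, hE0⟩ := hbox δ hδ0
    have hδ'0 : 0 ≤ δ' := hBox.δ_nonneg
    -- the estimate for one `Y`
    have hY : ∀ Y : K →L[ℂ] K, Y ∈ A → E 0 * Y * E 0 = Y → ‖Y‖ ≤ 1 →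
        ‖(Y * κ x - κ x * Y) (J ξ)‖ ≤ 2 * s := by
      intro Y hYA hYE hY1
      obtain ⟨hC1, hC2, hC3⟩ := h7 H K M N ξ U κ V J E T δ' hStd hBox Y (hA Y hYA) hYE hY1
      obtain ⟨C1, C2, hk1, hk2, hs1', hs2'⟩ :=
        h8 H K M N ξ U κ V J E T δ' hStd hBox Y (hA Y hYA) hYE hY1
      have hsum : ∀ F : Finset ℤ,
          ∑ m ∈ F, ‖(cf J E T Y m * x - x * cf J E T Y m) ξ‖ ^ 2 ≤ (2 * s) ^ 2 := by
        intro F
        have h1 := hc7 H M N ξ U hStd T L (s ^ 2) A0 (3 * δ') x hxM hfix hL0 hs2.le hA0 hA1 F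
          (cf J E T Y) C1 C2 hC1 (hC2 F) (hC3 F) hk1 hk2 (hs1' F) (hs2' F)
        have h2 : 20 * A0 * (3 * δ') ^ 2 ≤ 20 * A0 * (3 * δ) ^ 2 := by
          apply mul_le_mul_of_nonneg_left _ (by positivity)
          apply pow_le_pow_left₀ (by positivity)
          linarith
        have h3 : (2 * s) ^ 2 = 2 * s ^ 2 + s ^ 2 + s ^ 2 := by ring
        rw [h3]
        linarith
      have h4 := h9 H K ξ U κ V J E T δ' hBox Y x ((2 * s) ^ 2) hYE hsum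
      exact (sq_le_sq₀ (norm_nonneg _) (by positivity)).1 h4
    obtain ⟨c, hc⟩ := hf0 H K M N ξ U hStd κ V A B hAB hB hA hirr J E T δ' hBox hE0 x (2 * s)
      hxM (hκ x hxM hfix) (by positivity) hY
    refine ⟨c, ?_⟩
    have h5 : (x - c • (1 : H →L[ℂ] H)) ξ = x ξ - c • ξ := by
      simp
    rw [h5] at hc
    have h6 : ‖x‖ * δ' ≤ ‖x‖ * δ := mul_le_mul_of_nonneg_left hδ' (norm_nonneg _)
    have h7' : s ^ 2 ≤ s := by nlinarith
    have h8' : 2 * (2 * s + 2 * ‖x‖ * δ') ≤ 8 * s := by nlinarith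
    linarith
  obtain ⟨c, hc⟩ := exists_smul ξ (x ξ) key
  refine ⟨c, ?_⟩
  have hmem : x - c • (1 : H →L[ℂ] H) ∈ M := sub_mem hxM (smul_one_mem M c)
  have hz : (x - c • (1 : H →L[ℂ] H)) ξ = 0 := by
    have h5 : (x - c • (1 : H →L[ℂ] H)) ξ = x ξ - c • ξ := by
      simp
    rw [h5, ← hc, sub_self]
  exact sub_eq_zero.1 (hStd.sep _ hmem hz)

end

end Pool.Agent.W158.CB
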